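import Mathlib
import Pool.Agent.H370R3.SphereTools

/-!
The 2-colorability defect of a Kneser representation of a graph `G` never exceeds
`coind (B(G)) + 2`.
-/

namespace Pool.Agent.Results.MP_1c213c_co.DefectCoindex

/-! ### Box complex and coindex -/

/-- `CN(A)`: the set of common neighbours of the vertices in `A`. -/
def CN {V : Type} (G : SimpleGraph V) (A : Set V) : Set V := {v | ∀ a ∈ A, G.Adj a v}

/-- `A ⊎ B` is a simplex of the box complex `B(G)`: `A` and `B` are disjoint and completely joined,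
and both `A` and `B` have a common neighbour. -/
def Simplex {V : Type} (G : SimpleGraph V) (A B : Set V) : Prop :=
  (Disjoint A B ∧ ∀ a ∈ A, ∀ b ∈ B, G.Adj a b) ∧ (CN G A).Nonempty ∧ (CN G B).Nonempty

/-- Geometric realization, in barycentric coordinates, of the simplicial complex on the signed
vertices `V × Bool` (`(v, true)` is `+v`, `(v, false)` is `-v`) whose simplices are the sets
`A ⊎ B` with `S A B`. -/
def Realization {V : Type} [Fintype V] (S : Set V → Set V → Prop) : Type :=
  {x : V × Bool → ℝ // (∀ w, 0 ≤ x w) ∧ ∑ w, x w = 1 ∧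
    S {v | x (v, true) ≠ 0} {v | x (v, false) ≠ 0}}

/-- The topology of the realization is the subspace topology of the finite-dimensional space of
coordinates. -/
instance {V : Type} [Fintype V] (S : Set V → Set V → Prop) : TopologicalSpace (Realization S) :=
  instTopologicalSpaceSubtype

/-- The geometric realization of the box complex `B(G)`. -/
abbrev Box {V : Type} [Fintype V] (G : SimpleGraph V) : Type := Realization (Simplex G)

/-- The involution exchanging `+v` and `-v`, on the realization of a complex invariant under it. -/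
def swap {V : Type} [Fintype V] {S : Set V → Set V → Prop} (hS : ∀ A B, S A B → S B A)
    (x : Realization S) : Realization S :=
  ⟨fun w => x.1 (w.1, !w.2), fun _ => x.2.1 _,
    (Fintype.sum_equiv (Equiv.prodCongr (Equiv.refl V) Equiv.boolNot) _ _ (fun _ => rfl)).trans
      x.2.2.1,
    hS _ _ x.2.2.2⟩

theorem simplex_symm {V : Type} (G : SimpleGraph V) (A B : Set V) (h : Simplex G A B) :
    Simplex G B A :=
  ⟨⟨h.1.1.symm, fun b hb a ha => (h.1.2 a ha b hb).symm⟩, h.2.2, h.2.1⟩

/-- There is a continuous equivariant map from the sphere `Sⁿ` with the antipodal involution to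
the space `X` with involution `τ`. -/
def HasMap (n : ℕ) (X : Type) [TopologicalSpace X] (τ : X → X) : Prop :=
  ∃ f : Metric.sphere (0 : EuclideanSpace ℝ (Fin (n + 1))) 1 → X,
    Continuous f ∧ ∀ x, f (-x) = τ (f x)

/-- `c` is the coindex of `X` with involution `τ`: the largest `n` with a continuous equivariant
map `Sⁿ → X`, and `-1` if there is none. -/
def IsCoind (X : Type) [TopologicalSpace X] (τ : X → X) (c : ℤ) : Prop :=
  IsGreatest {d : ℤ | d = -1 ∨ ∃ n : ℕ, d = n ∧ HasMap n X τ} c

/-! ### Hypergraphs, colorability defect, Kneser representations -/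

/-- A hypergraph on the vertex set `W`: a set of nonempty subsets of `W`, the edges. -/
structure Hypergraph (W : Type) where
  edges : Set (Set W)
  nonempty : ∀ e ∈ edges, e.Nonempty

/-- The hypergraph `(W ∖ U, {e : e ∩ U = ∅})` is 2-colorable: there is a 2-coloring of the
vertices such that no edge disjoint from `U` is monochromatic. -/
def TwoColorableOff {W : Type} (H : Hypergraph W) (U : Set W) : Prop :=
  ∃ c : W → Bool, ∀ e ∈ H.edges, Disjoint e U → ∃ i ∈ e, ∃ j ∈ e, c i ≠ c j

/-- The 2-colorability defect `cd(H)`: the least size of a set `U` of vertices such that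
`(W ∖ U, {e : e ∩ U = ∅})` is 2-colorable. -/
noncomputable def cd {W : Type} (H : Hypergraph W) : ℕ :=
  sInf {k : ℕ | ∃ U : Set W, U.ncard = k ∧ TwoColorableOff H U}

/-- `φ` makes the hypergraph `H` a Kneser representation of the graph `G`: it is a bijection from
the vertices of `G` onto the edges of `H`, and two vertices are adjacent exactly when their images
are disjoint. -/
def IsKneserRep {V W : Type} (G : SimpleGraph V) (H : Hypergraph W) (φ : V → Set W) : Prop :=
  Set.BijOn φ Set.univ H.edges ∧ ∀ v w, v ≠ w → (G.Adj v w ↔ Disjoint (φ v) (φ w))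

/-! ### Finiteness of the coindex -/

section general

open Pool.Agent.H370R3.SphereTools

theorem no_map_card {V : Type} [Fintype V] {S : Set V → Set V → Prop}
    (hS : ∀ A B, S A B → S B A) (hd : ∀ A B, S A B → Disjoint A B) {n : ℕ}
    (hn : Fintype.card V ≤ n) : ¬ HasMap n (Realization S) (swap hS) := by
  rintro ⟨f, hf, hodd⟩
  let e := (Fintype.equivFin V).symm
  have hc : ∀ w, Continuous (fun x => (f x).1 w) := fun w =>
    (continuous_apply w).comp (continuous_subtype_val.comp hf)
  obtain ⟨x, hx⟩ := borsuk_ulam hn (fun x i => (f x).1 (e i, true) - (f x).1 (e i, false))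
    (continuous_pi fun i => (hc _).sub (hc _)) (by
      intro x
      funext i
      rw [hodd]
      simp [swap])
  have heq : ∀ v, (f x).1 (v, true) = (f x).1 (v, false) := by
    intro v
    have := congrFun hx (e.symm v)
    simp only [Equiv.apply_symm_apply, Pi.zero_apply] at this
    linarith
  have hzero : ∀ v, (f x).1 (v, true) = 0 := by
    intro v
    by_contra h
    have h' : (f x).1 (v, false) ≠ 0 := by rw [← heq]; exact h
    exact Set.disjoint_left.mp (hd _ _ (f x).2.2.2)
      (show v ∈ {v | (f x).1 (v, true) ≠ 0} from h) h'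
  have hsum := (f x).2.2.1
  have : ∑ w, (f x).1 w = 0 := by
    refine Finset.sum_eq_zero ?_
    rintro ⟨v, b⟩ -
    cases b
    · rw [← heq]; exact hzero v
    · exact hzero v
  rw [this] at hsum
  exact zero_ne_one hsum

theorem exists_coind {X : Type} [TopologicalSpace X] {τ : X → X} {b : ℕ}
    (hb : ∀ n, b ≤ n → ¬ HasMap n X τ) : ∃ c : ℤ, IsCoind X τ c := by
  have hbd : ∀ z : ℤ, (z = -1 ∨ ∃ n : ℕ, z = n ∧ HasMap n X τ) → z ≤ (b : ℤ) - 1 := by
    rintro z (rfl | ⟨n, rfl, hn⟩)
    · have : (0 : ℤ) ≤ b := Int.natCast_nonneg b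
      linarith
    · by_contra hc
      exact hb n (by omega) hn
  obtain ⟨c, hc1, hc2⟩ := Int.exists_greatest_of_bdd
    (P := fun z : ℤ => z = -1 ∨ ∃ n : ℕ, z = n ∧ HasMap n X τ) ⟨_, hbd⟩ ⟨-1, Or.inl rfl⟩
  exact ⟨c, hc1, fun z hz => hc2 z hz⟩

end general

/-! ### The sweeping argument -/

section sweep

variable {V W : Type} [Fintype W]

/-- the parameter of a ground element on the moment curve -/
noncomputable def par (i : W) : ℝ := ((Fintype.equivFin W i : ℕ) : ℝ)

theorem par_injective : Function.Injective (par : W → ℝ) := by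
  intro i j h
  have h1 : (Fintype.equivFin W i : ℕ) = (Fintype.equivFin W j : ℕ) := by
    have h2 := h
    unfold par at h2
    exact_mod_cast h2
  exact (Fintype.equivFin W).injective (Fin.ext h1)

/-- the affine function with linear part `x` and constant term `s` on the moment curve -/
noncomputable def val {m : ℕ} (s : ℝ) (x : EuclideanSpace ℝ (Fin (m + 1))) (i : W) : ℝ :=
  s + ∑ j : Fin (m + 1), x j * par i ^ ((j : ℕ) + 1)

theorem val_neg {m : ℕ} (s : ℝ) (x : EuclideanSpace ℝ (Fin (m + 1))) (i : W) :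
    val (-s) (-x) i = - val s x i := by
  simp only [val, PiLp.neg_apply, neg_mul, Finset.sum_neg_distrib]
  ring

theorem val_continuous {m : ℕ} (i : W) :
    Continuous (fun p : ℝ × EuclideanSpace ℝ (Fin (m + 1)) => val p.1 p.2 i) := by
  unfold val
  fun_prop

open Polynomial in
theorem zeros_card {m : ℕ} (s : ℝ) (x : EuclideanSpace ℝ (Fin (m + 1))) (hx : x ≠ 0) :
    {i : W | val s x i = 0}.ncard ≤ m + 1 := by
  classical
  let P : ℝ[X] := C s + ∑ j : Fin (m + 1), C (x j) * X ^ ((j : ℕ) + 1)
  have hdeg : P.natDegree ≤ m + 1 := by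
    refine (natDegree_add_le _ _).trans (max_le (by simp) ?_)
    refine natDegree_sum_le_of_forall_le _ _ fun j _ => ?_
    refine (natDegree_C_mul_X_pow_le _ _).trans ?_
    have := j.2
    omega
  have hne : P ≠ 0 := by
    obtain ⟨j, hj⟩ : ∃ j, x j ≠ 0 := by
      by_contra h
      push Not at h
      exact hx (by ext j; exact h j)
    intro h0
    apply hj
    have h1 : P.coeff ((j : ℕ) + 1) = x j := by
      simp only [P, coeff_add, coeff_C, finsetSum_coeff, coeff_C_mul, coeff_X_pow]
      rw [Finset.sum_eq_single j]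
      · simp
      · intro b _ hb
        have : (j : ℕ) ≠ (b : ℕ) := fun h => hb (Fin.ext h.symm)
        simp [this]
      · simp
    rw [← h1, h0, coeff_zero]
  have heval : ∀ i : W, P.eval (par i) = val s x i := by
    intro i
    simp [P, val, eval_finsetSum]
  have hmaps : ∀ i ∈ {i : W | val s x i = 0}, par i ∈ (P.roots.toFinset : Set ℝ) := by
    intro i hi
    simp only [Finset.mem_coe, Multiset.mem_toFinset]
    rw [mem_roots hne, IsRoot, heval]
    exact hi
  calc {i : W | val s x i = 0}.ncard ≤ (P.roots.toFinset : Set ℝ).ncard :=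
        Set.ncard_le_ncard_of_injOn par hmaps par_injective.injOn (Finset.finite_toSet _)
    _ = P.roots.toFinset.card := Set.ncard_coe_finset _
    _ ≤ Multiset.card P.roots := Multiset.toFinset_card_le _
    _ ≤ P.natDegree := card_roots' _
    _ ≤ m + 1 := hdeg

variable (φ : V → Set W)

/-- both open sides of the hyperplane contain a set of the family -/
def good {m : ℕ} (x : EuclideanSpace ℝ (Fin (m + 1))) : Set ℝ :=
  {s | (∃ v, ∀ i ∈ φ v, 0 < val s x i) ∧ ∃ v, ∀ i ∈ φ v, val s x i < 0}

theorem good_neg {m : ℕ} (x : EuclideanSpace ℝ (Fin (m + 1))) {s : ℝ} (hs : s ∈ good φ x) :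
    -s ∈ good φ (-x) := by
  obtain ⟨⟨v, hv⟩, ⟨w, hw⟩⟩ := hs
  refine ⟨⟨w, fun i hi => ?_⟩, ⟨v, fun i hi => ?_⟩⟩
  · rw [val_neg]; linarith [hw i hi]
  · rw [val_neg]; linarith [hv i hi]

theorem good_convex {m : ℕ} (x : EuclideanSpace ℝ (Fin (m + 1))) : Convex ℝ (good φ x) := by
  have h : Set.OrdConnected (good φ x) := by
    refine ⟨?_⟩
    rintro a ⟨⟨v, hv⟩, -⟩ b ⟨-, ⟨w, hw⟩⟩ s ⟨h1, h2⟩
    refine ⟨⟨v, fun i hi => ?_⟩, ⟨w, fun i hi => ?_⟩⟩
    · have := hv i hi
      unfold val at this ⊢
      linarith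
    · have := hw i hi
      unfold val at this ⊢
      linarith
  exact h.convex

theorem isOpen_pos {m : ℕ} (x : EuclideanSpace ℝ (Fin (m + 1))) (v : V) :
    IsOpen {s : ℝ | ∀ i ∈ φ v, 0 < val s x i} := by
  have h : {s : ℝ | ∀ i ∈ φ v, 0 < val s x i} = ⋂ i ∈ φ v, {s | 0 < val s x i} := by
    ext s; simp
  rw [h]
  refine (Set.toFinite (φ v)).isOpen_biInter fun i _ => ?_
  exact isOpen_lt continuous_const
    ((val_continuous i).comp (continuous_id.prodMk continuous_const))

theorem isOpen_neg {m : ℕ} (x : EuclideanSpace ℝ (Fin (m + 1))) (v : V) :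
    IsOpen {s : ℝ | ∀ i ∈ φ v, val s x i < 0} := by
  have h : {s : ℝ | ∀ i ∈ φ v, val s x i < 0} = ⋂ i ∈ φ v, {s | val s x i < 0} := by
    ext s; simp
  rw [h]
  refine (Set.toFinite (φ v)).isOpen_biInter fun i _ => ?_
  exact isOpen_lt ((val_continuous i).comp (continuous_id.prodMk continuous_const))
    continuous_const

/-- the sweep: some position of the hyperplane has a set of the family on both open sides -/
theorem good_nonempty {m : ℕ} (x : EuclideanSpace ℝ (Fin (m + 1)))
    (hne : Nonempty V)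
    (hcov : ∀ s, (∃ v, ∀ i ∈ φ v, 0 < val s x i) ∨ ∃ v, ∀ i ∈ φ v, val s x i < 0) :
    (good φ x).Nonempty := by
  obtain ⟨v₀⟩ := hne
  let u : Set ℝ := {s | ∃ v, ∀ i ∈ φ v, 0 < val s x i}
  let w : Set ℝ := {s | ∃ v, ∀ i ∈ φ v, val s x i < 0}
  have hu : IsOpen u := by
    have : u = ⋃ v, {s | ∀ i ∈ φ v, 0 < val s x i} := by ext s; simp [u]
    rw [this]
    exact isOpen_iUnion fun v => isOpen_pos φ x v
  have hw : IsOpen w := by
    have : w = ⋃ v, {s | ∀ i ∈ φ v, val s x i < 0} := by ext s; simp [w]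
    rw [this]
    exact isOpen_iUnion fun v => isOpen_neg φ x v
  let K : ℝ := ∑ i : W, |∑ j : Fin (m + 1), x j * par i ^ ((j : ℕ) + 1)|
  have hK : ∀ i : W, |∑ j : Fin (m + 1), x j * par i ^ ((j : ℕ) + 1)| ≤ K := fun i =>
    Finset.single_le_sum
      (f := fun i : W => |∑ j : Fin (m + 1), x j * par i ^ ((j : ℕ) + 1)|)
      (fun _ _ => abs_nonneg _) (Finset.mem_univ i)
  have hune : (Set.univ ∩ u).Nonempty := by
    refine ⟨K + 1, trivial, v₀, fun i _ => ?_⟩
    have := hK i
    have h2 := neg_abs_le (∑ j : Fin (m + 1), x j * par i ^ ((j : ℕ) + 1))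
    unfold val
    linarith
  have hwne : (Set.univ ∩ w).Nonempty := by
    refine ⟨-(K + 1), trivial, v₀, fun i _ => ?_⟩
    have := hK i
    have h2 := le_abs_self (∑ j : Fin (m + 1), x j * par i ^ ((j : ℕ) + 1))
    unfold val
    linarith
  obtain ⟨s, -, hs⟩ := isPreconnected_univ (α := ℝ) u w hu hw
    (fun s _ => hcov s) hune hwne
  exact ⟨s, hs⟩

theorem good_local {m : ℕ} (x : EuclideanSpace ℝ (Fin (m + 1))) {s : ℝ} (hs : s ∈ good φ x) :
    ∀ᶠ y in nhds x, s ∈ good φ y := by
  obtain ⟨⟨v, hv⟩, ⟨w, hw⟩⟩ := hs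
  have h1 : ∀ᶠ y in nhds x, ∀ i ∈ φ v, 0 < val s y i := by
    refine (Filter.eventually_all_finite (Set.toFinite (φ v))).2 fun i hi => ?_
    exact ((val_continuous i).comp (continuous_const.prodMk continuous_id)).continuousAt.eventually
      (lt_mem_nhds (hv i hi))
  have h2 : ∀ᶠ y in nhds x, ∀ i ∈ φ w, val s y i < 0 := by
    refine (Filter.eventually_all_finite (Set.toFinite (φ w))).2 fun i hi => ?_
    exact ((val_continuous i).comp (continuous_const.prodMk continuous_id)).continuousAt.eventually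
      (gt_mem_nhds (hw i hi))
  filter_upwards [h1, h2] with y hy1 hy2
  exact ⟨⟨v, hy1⟩, ⟨w, hy2⟩⟩

/-- an odd continuous choice of good positions -/
theorem exists_odd_section {m : ℕ}
    (hne : ∀ x : Metric.sphere (0 : EuclideanSpace ℝ (Fin (m + 1))) 1,
      (good φ (x : EuclideanSpace ℝ (Fin (m + 1)))).Nonempty) :
    ∃ g : Metric.sphere (0 : EuclideanSpace ℝ (Fin (m + 1))) 1 → ℝ, Continuous g ∧
      (∀ x : Metric.sphere (0 : EuclideanSpace ℝ (Fin (m + 1))) 1, g (-x) = - g x) ∧
      ∀ x : Metric.sphere (0 : EuclideanSpace ℝ (Fin (m + 1))) 1,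
        g x ∈ good φ (x : EuclideanSpace ℝ (Fin (m + 1))) := by
  obtain ⟨g, hg⟩ := exists_continuous_forall_mem_convex_of_local_const
    (X := Metric.sphere (0 : EuclideanSpace ℝ (Fin (m + 1))) 1) (E := ℝ)
    (t := fun x => good φ (x : EuclideanSpace ℝ (Fin (m + 1))))
    (fun x => good_convex φ _) (fun x => by
      obtain ⟨s, hs⟩ := hne x
      exact ⟨s, continuous_subtype_val.continuousAt.eventually (good_local φ _ hs)⟩)
  refine ⟨fun x => (1 / 2 : ℝ) * g x + (1 / 2 : ℝ) * (- g (-x)), ?_, ?_, ?_⟩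
  · have hn : Continuous (fun x : Metric.sphere (0 : EuclideanSpace ℝ (Fin (m + 1))) 1 => -x) :=
      continuous_neg
    exact ((continuous_const.mul g.continuous)).add
      (continuous_const.mul (g.continuous.comp hn).neg)
  · intro x
    simp only [neg_neg]
    ring
  · intro x
    have h1 := hg x
    have h2 : - g (-x) ∈ good φ (x : EuclideanSpace ℝ (Fin (m + 1))) := by
      have := good_neg φ _ (hg (-x))
      simpa using this
    have := good_convex φ (x : EuclideanSpace ℝ (Fin (m + 1))) h1 h2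
      (show (0 : ℝ) ≤ 1 / 2 by norm_num) (show (0 : ℝ) ≤ 1 / 2 by norm_num) (by norm_num)
    simpa using this

end sweep

/-! ### The equivariant map -/

section map

variable {V W : Type} [Fintype V] [Fintype W]

open Classical in
theorem hasMap_of_section {m : ℕ} (G : SimpleGraph V) (φ : V → Set W)
    (hnon : ∀ v, (φ v).Nonempty) (hadj : ∀ v w, v ≠ w → Disjoint (φ v) (φ w) → G.Adj v w)
    (g : Metric.sphere (0 : EuclideanSpace ℝ (Fin (m + 1))) 1 → ℝ) (hg : Continuous g)
    (hodd : ∀ x : Metric.sphere (0 : EuclideanSpace ℝ (Fin (m + 1))) 1, g (-x) = - g x)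
    (hgood : ∀ x : Metric.sphere (0 : EuclideanSpace ℝ (Fin (m + 1))) 1,
      g x ∈ good φ (x : EuclideanSpace ℝ (Fin (m + 1)))) :
    HasMap m (Box G) (swap (simplex_symm G)) := by
  let h : Metric.sphere (0 : EuclideanSpace ℝ (Fin (m + 1))) 1 → W → ℝ := fun x i =>
    val (g x) (x : EuclideanSpace ℝ (Fin (m + 1))) i
  have hc : ∀ i, Continuous (fun x => h x i) := fun i =>
    (val_continuous i).comp (hg.prodMk continuous_subtype_val)
  have hho : ∀ x i, h (-x) i = - h x i := by
    intro x i
    have : h (-x) i = val (g (-x)) (-(x : EuclideanSpace ℝ (Fin (m + 1)))) i := rfl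
    rw [this, hodd, val_neg]
  let c : Metric.sphere (0 : EuclideanSpace ℝ (Fin (m + 1))) 1 → V × Bool → ℝ := fun x w =>
    ∏ i ∈ (φ w.1).toFinset, max (if w.2 then h x i else - h x i) 0
  have hcc : ∀ w, Continuous (fun x => c x w) := by
    rintro ⟨v, b⟩
    refine continuous_finsetProd _ fun i _ => ?_
    cases b
    · simpa using ((hc i).neg).max continuous_const
    · simpa using (hc i).max continuous_const
  have hc0 : ∀ x w, 0 ≤ c x w := fun x w => Finset.prod_nonneg fun i _ => le_max_right _ _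
  have hcpos : ∀ x v, 0 < c x (v, true) ↔ ∀ i ∈ φ v, 0 < h x i := by
    intro x v
    constructor
    · intro hp i hi
      by_contra hle
      push Not at hle
      have : c x (v, true) = 0 := by
        refine Finset.prod_eq_zero (Set.mem_toFinset.2 hi) ?_
        simpa using hle
      rw [this] at hp
      exact lt_irrefl _ hp
    · intro hp
      refine Finset.prod_pos fun i hi => ?_
      have := hp i (Set.mem_toFinset.1 hi)
      simpa using this
  have hcneg : ∀ x v, 0 < c x (v, false) ↔ ∀ i ∈ φ v, h x i < 0 := by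
    intro x v
    constructor
    · intro hp i hi
      by_contra hle
      push Not at hle
      have : c x (v, false) = 0 := by
        refine Finset.prod_eq_zero (Set.mem_toFinset.2 hi) ?_
        simpa using hle
      rw [this] at hp
      exact lt_irrefl _ hp
    · intro hp
      refine Finset.prod_pos fun i hi => ?_
      have := hp i (Set.mem_toFinset.1 hi)
      simpa using this
  let S : Metric.sphere (0 : EuclideanSpace ℝ (Fin (m + 1))) 1 → ℝ := fun x => ∑ w, c x w
  have hSc : Continuous S := continuous_finsetSum _ fun w _ => hcc w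
  have hSpos : ∀ x, 0 < S x := by
    intro x
    obtain ⟨⟨v, hv⟩, -⟩ := hgood x
    exact Finset.sum_pos' (fun w _ => hc0 x w) ⟨(v, true), Finset.mem_univ _, (hcpos x v).2 hv⟩
  have hne : ∀ x w, c x w / S x ≠ 0 ↔ 0 < c x w := by
    intro x w
    constructor
    · intro h1
      refine lt_of_le_of_ne (hc0 x w) fun h2 => h1 ?_
      rw [← h2, zero_div]
    · intro h1
      exact (div_pos h1 (hSpos x)).ne'
  have hsimp : ∀ x, Simplex G {v | c x (v, true) / S x ≠ 0} {v | c x (v, false) / S x ≠ 0} := by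
    intro x
    have hA : ∀ v, v ∈ {v | c x (v, true) / S x ≠ 0} ↔ ∀ i ∈ φ v, 0 < h x i := fun v =>
      (hne x _).trans (hcpos x v)
    have hB : ∀ v, v ∈ {v | c x (v, false) / S x ≠ 0} ↔ ∀ i ∈ φ v, h x i < 0 := fun v =>
      (hne x _).trans (hcneg x v)
    have hadj' : ∀ a ∈ {v | c x (v, true) / S x ≠ 0}, ∀ b ∈ {v | c x (v, false) / S x ≠ 0},
        G.Adj a b := by
      intro a ha b hb
      rw [hA] at ha
      rw [hB] at hb
      refine hadj a b ?_ ?_
      · rintro rfl
        obtain ⟨i, hi⟩ := hnon a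
        exact lt_asymm (ha i hi) (hb i hi)
      · rw [Set.disjoint_left]
        intro i hi hi'
        exact lt_asymm (ha i hi) (hb i hi')
    obtain ⟨⟨v, hv⟩, ⟨w, hw⟩⟩ := hgood x
    have hvA : v ∈ {v | c x (v, true) / S x ≠ 0} := (hA v).2 hv
    have hwB : w ∈ {v | c x (v, false) / S x ≠ 0} := (hB w).2 hw
    refine ⟨⟨?_, hadj'⟩, ⟨w, fun a ha => hadj' a ha w hwB⟩, ⟨v, fun b hb => (hadj' v hvA b hb).symm⟩⟩
    rw [Set.disjoint_left]
    intro a ha hb
    exact (hadj' a ha a hb).ne rfl
  refine ⟨fun x => ⟨fun w => c x w / S x, fun w => div_nonneg (hc0 x w) (hSpos x).le, ?_,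
    hsimp x⟩, ?_, ?_⟩
  · rw [← Finset.sum_div]
    exact div_self (hSpos x).ne'
  · refine Continuous.subtype_mk (continuous_pi fun w => ?_) _
    exact (hcc w).div hSc fun x => (hSpos x).ne'
  · intro x
    apply Subtype.ext
    funext w
    have hcsw : ∀ w : V × Bool, c (-x) w = c x (w.1, !w.2) := by
      rintro ⟨v, b⟩
      refine Finset.prod_congr rfl fun i _ => ?_
      rw [hho]
      cases b <;> simp
    have hSsw : S (-x) = S x := by
      refine Fintype.sum_equiv (Equiv.prodCongr (Equiv.refl V) Equiv.boolNot) _ _ fun w => ?_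
      exact hcsw w
    show c (-x) w / S (-x) = c x (w.1, !w.2) / S x
    rw [hcsw, hSsw]

end map

/-- For every finite simple graph `G` and every Kneser representation of `G` by a hypergraph `H` on
a finite vertex set, the coindex `c` of the box complex `B(G)` exists and `cd(H) ≤ c + 2`. -/
theorem result {V W : Type} [Fintype V] [Fintype W] (G : SimpleGraph V) (H : Hypergraph W)
    (φ : V → Set W) (hφ : IsKneserRep G H φ) :
    ∃ c : ℤ, IsCoind (Box G) (swap (simplex_symm G)) c ∧ (cd H : ℤ) ≤ c + 2 := by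
  classical
  obtain ⟨c, hc⟩ := exists_coind (X := Box G) (τ := swap (simplex_symm G))
    (b := Fintype.card V)
    (fun n hn => no_map_card (simplex_symm G) (fun A B h => h.1.1) hn)
  refine ⟨c, hc, ?_⟩
  by_contra hlt
  push Not at hlt
  have hc1 : -1 ≤ c := hc.2 (Or.inl rfl)
  obtain ⟨m, hm⟩ : ∃ m : ℕ, cd H = m + 2 := ⟨cd H - 2, by omega⟩
  have hnon : ∀ v, (φ v).Nonempty := fun v => H.nonempty _ (hφ.1.mapsTo (Set.mem_univ v))
  have hadj : ∀ v w, v ≠ w → Disjoint (φ v) (φ w) → G.Adj v w := fun v w h1 h2 =>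
    (hφ.2 v w h1).2 h2
  -- every nonzero affine function has an edge on one of its open sides
  have hcov : ∀ (x : EuclideanSpace ℝ (Fin (m + 1))), x ≠ 0 → ∀ s,
      (∃ v, ∀ i ∈ φ v, 0 < val s x i) ∨ ∃ v, ∀ i ∈ φ v, val s x i < 0 := by
    intro x hx s
    have h1 : ¬ TwoColorableOff H {i : W | val s x i = 0} := by
      intro h2
      have h3 : cd H ≤ {i : W | val s x i = 0}.ncard := Nat.sInf_le ⟨_, rfl, h2⟩
      have h4 := zeros_card (W := W) s x hx
      omega
    unfold TwoColorableOff at h1
    push Not at h1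
    obtain ⟨e, he, hdis, hmono⟩ := h1 (fun i => decide (0 < val s x i))
    obtain ⟨v, -, rfl⟩ := hφ.1.surjOn he
    obtain ⟨i₀, hi₀⟩ := hnon v
    have hz : ∀ i ∈ φ v, val s x i ≠ 0 := fun i hi h0 =>
      Set.disjoint_left.mp hdis hi h0
    by_cases hp : 0 < val s x i₀
    · left
      refine ⟨v, fun i hi => ?_⟩
      have := hmono i hi i₀ hi₀
      simpa [hp] using this
    · right
      refine ⟨v, fun i hi => ?_⟩
      have := hmono i hi i₀ hi₀
      have h5 : ¬ 0 < val s x i := by simpa [hp] using this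
      exact lt_of_le_of_ne (not_lt.mp h5) (hz i hi)
  have hV : Nonempty V := by
    by_contra hV
    have : cd H = 0 := by
      refine Nat.sInf_eq_zero.2 (Or.inl ⟨∅, by simp, fun _ => true, ?_⟩)
      intro e he
      obtain ⟨v, -, -⟩ := hφ.1.surjOn he
      exact absurd ⟨v⟩ hV
    omega
  have hne : ∀ x : Metric.sphere (0 : EuclideanSpace ℝ (Fin (m + 1))) 1,
      (good φ (x : EuclideanSpace ℝ (Fin (m + 1)))).Nonempty := by
    intro x
    have hx : (x : EuclideanSpace ℝ (Fin (m + 1))) ≠ 0 := by
      intro h0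
      have h1 := x.2
      rw [mem_sphere_zero_iff_norm, h0, norm_zero] at h1
      exact zero_ne_one h1
    exact good_nonempty φ _ hV (hcov _ hx)
  obtain ⟨g, hg, hodd, hgood⟩ := exists_odd_section φ hne
  have hmap := hasMap_of_section G φ hnon hadj g hg hodd hgood
  have h6 : (m : ℤ) ≤ c := hc.2 (Or.inr ⟨m, rfl, hmap⟩)
  omega

end Pool.Agent.Results.MP_1c213c_co.DefectCoindex
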